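import Pool.Agent.ARPoset.Coxeter24
import Pool.Agent.ARPoset.NotAR24

/-!
# The Coxeter matrix test for Auslander regularity fails for bounded posets

There is a bounded poset `R` with 24 elements such that, for every linear extension of `R`, the
Coxeter matrix is the product of a permutation matrix and an upper triangular matrix, while the
incidence algebra `KR` is not Auslander regular, for any field `K`.  The poset is `P24` in
`Pool/Agent/ARPoset/Poset24.lean`, where its covering relations are listed.

The poset was found by a computer search among the bounded posets obtained from small ones by
repeatedly choosing an element `w` and adding a new element, below the top element only, which lies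
above exactly those elements which are not `≥ w`; this makes the injective hull of the simple
module at `w` a module of projective dimension one.

* Coxeter matrix: there is a permutation `ρ` of `R` such that for each `x` the element `ρ x` is the
  least element of the support of row `x` of the Coxeter matrix (`cox_support`).  This gives
  `C = P U` for every linear extension (`coxeter_isPermMulUpper`).
* Let `t` be the element `6`, `S(t)` the simple module at `t`, `I(t)` its injective hull.  Then
  `Ext²(S(t), A) ≠ 0` (`ext_two`), so that `I(t)` is a summand of the term `I²` of every injective
  coresolution of the right regular module, and `Ext³(I(t), S(15)) ≠ 0` (`ext_three`), so that the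
  projective dimension of `I²` is larger than two.
-/

open CategoryTheory

namespace Pool.Agent.Results.MP_836957_al.CoxeterTestFails

open Pool.Agent.ARPoset

universe u

theorem result : ∃ (R : Type) (_ : PartialOrder R) (_ : BoundedOrder R) (_ : Fintype R)
    (_ : LocallyFiniteOrder R) (_ : DecidableEq R) (_ : DecidableLE R),
    Fintype.card R = 24 ∧
    (∃ x : Fin 24 ≃ R, IsLinearExtension x) ∧
    (∀ (n : ℕ) (x : Fin n ≃ R), IsLinearExtension x → IsPermMulUpper (coxeter x)) ∧
    ∀ (K : Type u) [Field K],
      ¬ IsAuslanderRegular (IncidenceAlgebra K R) ∧ FailsInDegree (IncidenceAlgebra K R) 2 :=
  ⟨P24, inferInstance, inferInstance, inferInstance, inferInstance, inferInstance, inferInstance,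
    card_P24, ⟨ext24, ext24_isLinearExtension⟩, fun _ x hx => coxeter_isPermMulUpper x hx,
    fun K _ => ⟨not_isAuslanderRegular K, failsInDegree_two K⟩⟩

end Pool.Agent.Results.MP_836957_al.CoxeterTestFails
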